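import Pool.Agent.N659.HB.Stm7
import Pool.Agent.N335.LD.Fold

/-!
Part FINF of the project LD (helper659): the final form of the theorem.
-/

namespace Pool.Agent.N360.LD.Finf

open MeasureTheory Filter Pool.Agent.W792.LL Pool.Agent.W792.WA Pool.Agent.N659.HB
open scoped Topology ENNReal

noncomputable section

/-- Two sets which differ only inside a small set. -/
theorem tv_aux (κ : Measure ℝ) [IsProbabilityMeasure κ] {A A' T : Set ℝ} {e : ℝ}
    (he : 0 ≤ e) (hT : κ T ≤ ENNReal.ofReal e) (h1 : A ⊆ A' ∪ T) (h2 : A' ⊆ A ∪ T) :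
    |(κ A).toReal - (κ A').toReal| ≤ e := by
  have key : ∀ {P Q : Set ℝ}, P ⊆ Q ∪ T → (κ P).toReal ≤ (κ Q).toReal + e := by
    intro P Q h
    have h3 : κ P ≤ κ Q + ENNReal.ofReal e :=
      (measure_mono h).trans ((measure_union_le _ _).trans (add_le_add le_rfl hT))
    have h4 := ENNReal.toReal_mono
      (ENNReal.add_ne_top.2 ⟨measure_ne_top _ _, ENNReal.ofReal_ne_top⟩) h3
    rwa [ENNReal.toReal_add (measure_ne_top _ _) ENNReal.ofReal_ne_top,
      ENNReal.toReal_ofReal he] at h4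
  rw [abs_le]
  constructor
  · have := key h2
    linarith
  · have := key h1
    linarith

/-- Part FINF. -/
theorem main : S_LD → S_BDR → S_FOLD → S_TVA → S_LDF := by
  intro hLD hBDR hFOLD hTVA μ _ W hW hsupp d a b ε hd hab hε
  classical
  have hε4 : (0 : ℝ) < ε / 4 := by positivity
  have hpos : (0 : ℝ≥0∞) < ENNReal.ofReal (ε / 4) := ENNReal.ofReal_pos.2 hε4
  -- the size of the Cauchy component
  obtain ⟨M, hM0, hM⟩ : ∃ M : ℝ, 0 < M ∧
      ProbabilityTheory.cauchyMeasure 0 1 {v : ℝ | M < |v|} ≤ ENNReal.ofReal (ε / 4) := by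
    have h := Pool.Agent.N335.LD.Fold.tail (ProbabilityTheory.cauchyMeasure 0 1)
    have h1 := (h.eventually (ge_mem_nhds hpos)).and (eventually_gt_atTop (0 : ℝ))
    obtain ⟨M, hM1, hM2⟩ := h1.exists
    exact ⟨M, hM2, hM1⟩
  obtain ⟨δ₀, hδ₀, hδTV⟩ : ∃ δ₀ : ℝ, 0 < δ₀ ∧ ∀ δ : ℝ, 0 < δ → δ ≤ δ₀ → μ ≪ volume →
      ∀ A : Set ℝ, MeasurableSet A → |(cyl μ δ A).toReal - (μ A).toReal| ≤ ε / 2 := by
    by_cases hac : μ ≪ volume
    · obtain ⟨δ₀, h0, h1⟩ := hTVA μ (ε / 2) hac (by positivity)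
      exact ⟨δ₀, h0, fun δ hδ hδ' _ => h1 δ hδ hδ'⟩
    · exact ⟨1, one_pos, fun δ _ _ h => absurd h hac⟩
  obtain ⟨δ, hδ, hδ1, hδ2⟩ : ∃ δ : ℝ, 0 < δ ∧ δ ≤ ε / M ∧ δ ≤ δ₀ :=
    ⟨min (ε / M) δ₀, lt_min (by positivity) hδ₀, min_le_left _ _, min_le_right _ _⟩
  obtain ⟨R₀, hR₀, hR⟩ := hLD μ W δ hδ hW hsupp d a b ε hd hab hε
  obtain ⟨hfm, -, -, htail, -⟩ := hFOLD μ δ hδ
  obtain ⟨R, hRR₀, hRt⟩ : ∃ R : ℝ, R₀ ≤ R ∧
      cyl μ δ {v : ℝ | R < |v|} ≤ ENNReal.ofReal (ε / 4) := by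
    have h1 := (htail.eventually (ge_mem_nhds hpos)).and (eventually_ge_atTop R₀)
    obtain ⟨R, h2, h3⟩ := h1.exists
    exact ⟨R, h3, h2⟩
  have hR0 : 0 < R := hR₀.trans_le hRR₀
  obtain ⟨hmf, hfR⟩ := hfm R hR0
  obtain ⟨f, hf1, hf2, hf3⟩ := hR R hRR₀
  have hν : IsProbabilityMeasure ((cyl μ δ).map (fold R)) :=
    Measure.isProbabilityMeasure_map hmf.aemeasurable
  have hp : Measurable fun p : ℝ × ℝ => p.1 + δ * p.2 := by fun_prop
  have hq : Measurable fun p : ℝ × ℝ => (p.1, fold R (p.1 + δ * p.2)) :=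
    measurable_fst.prodMk (hmf.comp hp)
  refine ⟨(cyl μ δ).map (fold R), hν,
    (μ.prod (ProbabilityTheory.cauchyMeasure 0 1)).map
      (fun p : ℝ × ℝ => (p.1, fold R (p.1 + δ * p.2))), ?_, ?_, ?_, ?_, ?_, f, hf1, hf2,
      hf3 _ rfl⟩
  · rw [Measure.map_map measurable_fst hq]
    have : (Prod.fst ∘ fun p : ℝ × ℝ => (p.1, fold R (p.1 + δ * p.2))) = Prod.fst := rfl
    rw [this, Measure.map_fst_prod, measure_univ, one_smul]
  · rw [Measure.map_map measurable_snd hq]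
    unfold cyl
    rw [Measure.map_map hmf hp]
    rfl
  · have hms : MeasurableSet {p : ℝ × ℝ | ε < |p.1 - p.2|} :=
      measurableSet_lt measurable_const (measurable_fst.sub measurable_snd).abs
    rw [Measure.map_apply hq hms]
    have hsub : (fun p : ℝ × ℝ => (p.1, fold R (p.1 + δ * p.2))) ⁻¹' {p : ℝ × ℝ | ε < |p.1 - p.2|}
        ⊆ (Prod.snd ⁻¹' {v : ℝ | M < |v|}) ∪
          ((fun p : ℝ × ℝ => p.1 + δ * p.2) ⁻¹' {v : ℝ | R < |v|}) := by
      rintro ⟨x, y⟩ hxy
      by_contra hcon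
      simp only [Set.mem_union, Set.mem_preimage, Set.mem_ofPred_eq, not_or, not_lt] at hcon hxy
      obtain ⟨h1, h2⟩ := hcon
      have h3 : fold R (x + δ * y) = x + δ * y := by unfold fold; rw [if_pos h2]
      rw [h3] at hxy
      have h4 : |x - (x + δ * y)| = δ * |y| := by
        rw [show x - (x + δ * y) = -(δ * y) by ring, abs_neg, abs_mul, abs_of_pos hδ]
      rw [h4] at hxy
      have h5 : δ * |y| ≤ ε / M * M := mul_le_mul hδ1 h1 (abs_nonneg _) (by positivity)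
      rw [div_mul_cancel₀ _ hM0.ne'] at h5
      linarith
    refine (measure_mono hsub).trans ((measure_union_le _ _).trans ?_)
    have hmM : MeasurableSet {v : ℝ | M < |v|} :=
      measurableSet_lt measurable_const measurable_id.abs
    have hmR : MeasurableSet {v : ℝ | R < |v|} :=
      measurableSet_lt measurable_const measurable_id.abs
    have h1 : (μ.prod (ProbabilityTheory.cauchyMeasure 0 1)) (Prod.snd ⁻¹' {v : ℝ | M < |v|})
        ≤ ENNReal.ofReal (ε / 4) := by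
      rw [← Measure.map_apply measurable_snd hmM, Measure.map_snd_prod, measure_univ, one_smul]
      exact hM
    have h2 : (μ.prod (ProbabilityTheory.cauchyMeasure 0 1))
        ((fun p : ℝ × ℝ => p.1 + δ * p.2) ⁻¹' {v : ℝ | R < |v|}) ≤ ENNReal.ofReal (ε / 4) := by
      rw [← Measure.map_apply hp hmR]
      exact hRt
    refine (add_le_add h1 h2).trans ?_
    rw [← ENNReal.ofReal_add hε4.le hε4.le]
    exact ENNReal.ofReal_le_ofReal (by linarith)
  · obtain ⟨B, hB, hB'⟩ := hBDR μ W δ R hδ hW hsupp hR0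
    refine ⟨R, B, hR0, hB, ?_, hB'⟩
    rw [Measure.map_apply hmf measurableSet_Icc.compl]
    have : fold R ⁻¹' (Set.Icc (-R) R)ᶜ = ∅ := by
      ext v
      simp only [Set.mem_preimage, Set.mem_compl_iff, Set.mem_empty_iff_false, iff_false, not_not]
      exact abs_le.1 (hfR v)
    rw [this, measure_empty]
  · intro hac A hA
    have h1 := hδTV δ hδ hδ2 hac A hA
    have h2 : |((cyl μ δ).map (fold R) A).toReal - (cyl μ δ A).toReal| ≤ ε / 4 := by
      rw [Measure.map_apply hmf hA]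
      have hfix : ∀ v : ℝ, v ∉ {v : ℝ | R < |v|} → fold R v = v := by
        intro v hv
        have : |v| ≤ R := not_lt.1 hv
        unfold fold
        rw [if_pos this]
      refine tv_aux (cyl μ δ) hε4.le hRt ?_ ?_
      · intro v hv
        by_cases hvT : v ∈ {v : ℝ | R < |v|}
        · exact Or.inr hvT
        · refine Or.inl ?_
          have : fold R v ∈ A := hv
          rwa [hfix v hvT] at this
      · intro v hv
        by_cases hvT : v ∈ {v : ℝ | R < |v|}
        · exact Or.inr hvT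
        · refine Or.inl ?_
          change fold R v ∈ A
          rwa [hfix v hvT]
    have h3 := abs_sub_le ((cyl μ δ).map (fold R) A).toReal (cyl μ δ A).toReal (μ A).toReal
    linarith

end

end Pool.Agent.N360.LD.Finf
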